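import Mathlib

/-! Project ABG (helper88), job NUM (helper19), part 1: signed counts of finite sets of given
sum and their logarithmic derivative. -/

set_option autoImplicit false

open Finset

namespace Pool.Agent.J4H19.ABG

section

variable {I : Type*} {Γ : Type*} [AddCommGroup Γ] [DecidableEq Γ] [DecidableEq I]

/-- signed number of subsets of `J` with sum `γ` -/
def cc (J : Finset I) (x : I → Γ) (γ : Γ) : ℤ :=
  ∑ S ∈ J.powerset.filter (fun S => ∑ i ∈ S, x i = γ), (-1 : ℤ) ^ S.card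

/-- signed number of subsets of `J` with sum `γ` which contain `i` -/
def ff (J : Finset I) (x : I → Γ) (i : I) (γ : Γ) : ℤ :=
  ∑ S ∈ J.powerset.filter (fun S => ∑ i ∈ S, x i = γ ∧ i ∈ S), (-1 : ℤ) ^ S.card

lemma ff_rec (J : Finset I) (x : I → Γ) {i : I} (hi : i ∈ J) (γ : Γ) :
    ff J x i γ = - cc J x (γ - x i) + ff J x i (γ - x i) := by
  have h1 : cc J x (γ - x i) = ff J x i (γ - x i) +
      ∑ S ∈ J.powerset.filter (fun S => ∑ i ∈ S, x i = γ - x i ∧ i ∉ S), (-1 : ℤ) ^ S.card := by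
    unfold cc ff
    rw [← Finset.filter_filter, ← Finset.filter_filter, Finset.sum_filter_add_sum_filter_not]
  have h2 : ff J x i γ =
      - ∑ S ∈ J.powerset.filter (fun S => ∑ i ∈ S, x i = γ - x i ∧ i ∉ S), (-1 : ℤ) ^ S.card := by
    unfold ff
    rw [← Finset.sum_neg_distrib]
    refine Finset.sum_bij' (fun S _ => S.erase i) (fun S _ => insert i S) ?_ ?_ ?_ ?_ ?_
    · intro S hS
      simp only [mem_filter, mem_powerset] at hS ⊢
      refine ⟨(erase_subset _ _).trans hS.1, ?_, notMem_erase i S⟩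
      have := Finset.sum_erase_add S x hS.2.2
      rw [hS.2.1] at this
      rw [← this]; abel
    · intro S hS
      simp only [mem_filter, mem_powerset] at hS ⊢
      refine ⟨insert_subset hi hS.1, ?_, mem_insert_self i S⟩
      rw [Finset.sum_insert hS.2.2, hS.2.1]; abel
    · intro S hS
      simp only [mem_filter, mem_powerset] at hS
      exact insert_erase hS.2.2
    · intro S hS
      simp only [mem_filter, mem_powerset] at hS
      exact erase_insert hS.2.2
    · intro S hS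
      simp only [mem_filter, mem_powerset] at hS
      have := card_erase_add_one hS.2.2
      rw [← this, pow_succ]; ring
  rw [h2, h1]; ring

lemma ff_iter (J : Finset I) (x : I → Γ) {i : I} (hi : i ∈ J) (γ : Γ) (L : ℕ) :
    ff J x i γ = - ∑ l ∈ range L, cc J x (γ - (l + 1) • x i) + ff J x i (γ - L • x i) := by
  induction L with
  | zero => simp
  | succ L ih =>
    rw [ih, Finset.sum_range_succ, ff_rec J x hi (γ - L • x i)]
    have : γ - L • x i - x i = γ - (L + 1) • x i := by rw [add_smul, one_smul]; abel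
    rw [this]; ring

lemma ff_zero (J : Finset I) (x : I → Γ) (φ : Γ →+ ℤ) (h0 : ∀ i, 0 ≤ φ (x i)) (i : I) (γ : Γ)
    (h : φ γ < φ (x i)) : ff J x i γ = 0 := by
  unfold ff
  apply Finset.sum_eq_zero
  intro S hS
  simp only [mem_filter, mem_powerset] at hS
  exfalso
  have h1 : φ γ = ∑ j ∈ S, φ (x j) := by rw [← hS.2.1, map_sum]
  have h2 : φ (x i) ≤ ∑ j ∈ S, φ (x j) :=
    Finset.single_le_sum (f := fun j => φ (x j)) (fun j _ => h0 j) hS.2.2
  omega

lemma mul_cc (J : Finset I) (x : I → Γ) (φ : Γ →+ ℤ) (γ : Γ) :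
    φ γ * cc J x γ = ∑ i ∈ J, φ (x i) * ff J x i γ := by
  unfold cc ff
  simp_rw [← Finset.filter_filter, Finset.sum_filter (p := fun S => _ ∈ S)]
  simp_rw [Finset.mul_sum]
  rw [Finset.sum_comm]
  apply Finset.sum_congr rfl
  intro S hS
  simp only [mem_filter, mem_powerset] at hS
  have h1 : φ γ = ∑ j ∈ S, φ (x j) := by rw [← hS.2, map_sum]
  rw [h1, Finset.sum_mul]
  symm
  have h2 : ∀ i ∈ J, φ (x i) * (if i ∈ S then (-1 : ℤ) ^ S.card else 0)
      = if i ∈ S then φ (x i) * (-1) ^ S.card else 0 := by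
    intro i _; split_ifs <;> simp
  rw [Finset.sum_congr rfl h2, ← Finset.sum_filter]
  apply Finset.sum_congr _ fun _ _ => rfl
  ext i; simp only [mem_filter]
  exact ⟨fun h => h.2, fun h => ⟨hS.1 h, h⟩⟩

lemma rec_cc (J : Finset I) (x : I → Γ) (φ : Γ →+ ℤ) (h0 : ∀ i, 0 ≤ φ (x i)) (γ : Γ)
    (L : I → ℕ) (hL : ∀ i, φ γ - L i * φ (x i) < φ (x i)) :
    φ γ * cc J x γ =
      - ∑ i ∈ J, φ (x i) * ∑ l ∈ range (L i), cc J x (γ - (l + 1) • x i) := by
  rw [mul_cc, ← Finset.sum_neg_distrib]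
  apply Finset.sum_congr rfl
  intro i hi
  rw [ff_iter J x hi γ (L i), ff_zero J x φ h0 i (γ - L i • x i)]
  · ring
  · rw [map_sub, map_nsmul, nsmul_eq_mul]
    exact hL i

end

end Pool.Agent.J4H19.ABG
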