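import Mathlib
import Pool.Agent.J4H88.ABG.Comb
import Pool.Agent.J4H19.ABG.Rec

/-! Project ABG (helper88), job NUM (helper19), part 2: the recursion for `chi`. -/

set_option autoImplicit false

open Finset

namespace Pool.Agent.J4H19.ABG

open Pool.Agent.J4H88.ABG

universe u

/-- the weights -/
def UU : Finset (ℤ × ℤ) := {(0, 0), (2, -1), (-1, 2), (1, 1), (-2, 1), (1, -2), (-1, -1)}

lemma mlt_zero (a b : ℕ → ℕ) (n : ℕ) (w : ℤ × ℤ) (h : w ∉ UU) : mlt a b n w = 0 := by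
  unfold mlt
  unfold UU at h
  simp only [mem_insert, mem_singleton, not_or] at h
  obtain ⟨h0, h1, h2, h3, h4, h5, h6⟩ := h
  rw [if_neg h0, if_neg]
  simp only [List.mem_cons, List.not_mem_nil, or_false, not_or]
  exact ⟨h1, h2, h3, h4, h5, h6⟩

section

variable {I : Type u} (deg : I → ℕ) (wt : I → ℤ × ℤ)

/-- `chi` as a finite sum -/
lemma chi_eq [DecidableEq I] (hdeg : ∀ i, 1 ≤ deg i) (J : Finset I) (N : ℕ)
    (hJ : ∀ i, i ∈ J ↔ deg i ≤ N) (n : ℕ) (hn : n ≤ N) (w : ℤ × ℤ) :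
    chi deg wt n w = cc J (fun i => (((deg i : ℤ), wt i) : ℤ × (ℤ × ℤ))) ((n : ℤ), w) := by
  unfold chi cc
  have h1 : {S : Finset I | ∑ i ∈ S, deg i = n ∧ ∑ i ∈ S, wt i = w} =
      ((J.powerset.filter (fun S => ∑ i ∈ S, (((deg i : ℤ), wt i) : ℤ × (ℤ × ℤ)) = ((n : ℤ), w)) :
        Finset (Finset I)) : Set (Finset I)) := by
    ext S
    have hS : (∑ i ∈ S, (((deg i : ℤ), wt i) : ℤ × (ℤ × ℤ)) = ((n : ℤ), w)) ↔
        (∑ i ∈ S, deg i = n ∧ ∑ i ∈ S, wt i = w) := by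
      rw [Prod.ext_iff, Prod.fst_sum, Prod.snd_sum]
      simp only
      rw [← Nat.cast_sum, Nat.cast_inj]
    rw [mem_coe, mem_filter, mem_powerset, hS]
    constructor
    · rintro ⟨h2, h3⟩
      refine ⟨fun i hi => ?_, h2, h3⟩
      rw [hJ]
      have := Finset.single_le_sum (f := fun j => deg j) (fun j _ => Nat.zero_le _) hi
      omega
    · rintro ⟨-, h2, h3⟩
      exact ⟨h2, h3⟩
  have h2 := finsum_mem_coe_finset (fun S : Finset I => (-1 : ℤ) ^ S.card)
    (J.powerset.filter (fun S => ∑ i ∈ S, (((deg i : ℤ), wt i) : ℤ × (ℤ × ℤ)) = ((n : ℤ), w)))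
  rw [← h2, ← h1]
  rfl

variable (a b : ℕ → ℕ)

/-- the recursion of the logarithmic derivative -/
lemma chi_rec (hdeg : ∀ i, 1 ≤ deg i) (hfin : ∀ n, {i | deg i = n}.Finite)
    (hcount : ∀ n w, 1 ≤ n → {i | deg i = n ∧ wt i = w}.ncard = mlt a b n w)
    (n : ℕ) (w : ℤ × ℤ) :
    (n : ℤ) * chi deg wt n w = - ∑ j ∈ range n, ∑ u ∈ UU, (mlt a b (j + 1) u : ℤ) *
      (((j + 1 : ℕ) : ℤ) * ∑ l ∈ range (n / (j + 1)),
        chi deg wt (n - (l + 1) * (j + 1)) (w - (l + 1) • u)) := by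
  classical
  have hJf : {i | deg i ≤ n}.Finite := by
    have : {i | deg i ≤ n} = ⋃ k ∈ range (n + 1), {i | deg i = k} := by
      ext i; simp [Nat.lt_succ_iff]
    rw [this]
    exact Set.Finite.biUnion (range (n + 1)).finite_toSet fun k _ => hfin k
  set J : Finset I := hJf.toFinset with hJdef
  have hJ : ∀ i, i ∈ J ↔ deg i ≤ n := fun i => by rw [hJdef]; simp
  set x : I → ℤ × (ℤ × ℤ) := fun i => ((deg i : ℤ), wt i) with hx
  have key := rec_cc J x (AddMonoidHom.fst ℤ (ℤ × ℤ)) (fun i => by simp [hx])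
    ((n : ℤ), w) (fun i => n / deg i) (fun i => by
      simp only [hx, AddMonoidHom.coe_fst]
      have h1 := Nat.div_add_mod n (deg i)
      have h2 := Nat.mod_lt n (hdeg i)
      have h3 : (n : ℤ) = deg i * (n / deg i : ℕ) + (n % deg i : ℕ) := by exact_mod_cast h1.symm
      have h4 : ((n % deg i : ℕ) : ℤ) < deg i := by exact_mod_cast h2
      have h5 : ((n / deg i : ℕ) : ℤ) * (deg i : ℤ) = (deg i : ℤ) * ((n / deg i : ℕ) : ℤ) := by ring
      rw [h5]
      linarith)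
  simp only [AddMonoidHom.coe_fst, hx] at key
  rw [chi_eq deg wt hdeg J n hJ n le_rfl w, key]
  congr 1
  -- replace `cc` by `chi`
  have h1 : ∀ i ∈ J, (deg i : ℤ) * ∑ l ∈ range (n / deg i),
      cc J x (((n : ℤ), w) - (l + 1) • (((deg i : ℤ), wt i) : ℤ × (ℤ × ℤ))) =
      (fun (j : ℕ) (u : ℤ × ℤ) => (j : ℤ) * ∑ l ∈ range (n / j),
        chi deg wt (n - (l + 1) * j) (w - (l + 1) • u)) (deg i) (wt i) := by
    intro i _
    simp only
    congr 1
    apply Finset.sum_congr rfl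
    intro l hl
    rw [mem_range] at hl
    have h2 : (l + 1) * deg i ≤ n :=
      (Nat.mul_le_mul_right _ hl).trans (Nat.div_mul_le_self n (deg i))
    rw [chi_eq deg wt hdeg J n hJ _ (Nat.sub_le _ _)]
    congr 1
    rw [Prod.ext_iff]
    refine ⟨?_, rfl⟩
    rw [Prod.fst_sub, Prod.smul_fst, nsmul_eq_mul]
    simp only
    rw [Nat.cast_sub h2]
    push_cast
    ring
  have h1' : ∑ i ∈ J, (deg i : ℤ) * ∑ l ∈ range (n / deg i),
      cc J x (((n : ℤ), w) - (l + 1) • (((deg i : ℤ), wt i) : ℤ × (ℤ × ℤ))) =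
      ∑ i ∈ J, (fun (j : ℕ) (u : ℤ × ℤ) => (j : ℤ) * ∑ l ∈ range (n / j),
        chi deg wt (n - (l + 1) * j) (w - (l + 1) • u)) (deg i) (wt i) :=
    Finset.sum_congr rfl h1
  simp only [hx] at h1'
  rw [h1']
  set h : ℕ → ℤ × ℤ → ℤ := fun (j : ℕ) (u : ℤ × ℤ) => (j : ℤ) * ∑ l ∈ range (n / j),
        chi deg wt (n - (l + 1) * j) (w - (l + 1) • u) with hh
  -- every element of `J` has its weight in `UU`
  have hU : ∀ i, wt i ∈ UU := by
    intro i
    by_contra hc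
    have h3 := hcount (deg i) (wt i) (hdeg i)
    rw [mlt_zero a b _ _ hc] at h3
    have h4 : {k | deg k = deg i ∧ wt k = wt i}.Finite :=
      (hfin (deg i)).subset fun k hk => hk.1
    rw [Set.ncard_eq_zero h4] at h3
    have : i ∈ {k | deg k = deg i ∧ wt k = wt i} := ⟨rfl, rfl⟩
    rw [h3] at this
    exact this
  have hmap : ∀ i ∈ J, ((deg i - 1, wt i) : ℕ × (ℤ × ℤ)) ∈ range n ×ˢ UU := by
    intro i hi
    rw [mem_product]
    refine ⟨?_, hU i⟩
    have := (hJ i).1 hi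
    have := hdeg i
    simp only [mem_range]
    omega
  rw [← Finset.sum_fiberwise_of_maps_to hmap, Finset.sum_product]
  apply Finset.sum_congr rfl
  intro j hj
  apply Finset.sum_congr rfl
  intro u _
  have h5 : ∀ i ∈ J.filter (fun i => ((deg i - 1, wt i) : ℕ × (ℤ × ℤ)) = (j, u)),
      h (deg i) (wt i) = h (j + 1) u := by
    intro i hi
    rw [mem_filter, Prod.ext_iff] at hi
    obtain ⟨_, h6, h7⟩ := hi
    simp only at h6 h7
    have := hdeg i
    rw [h7, show deg i = j + 1 by omega]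
  rw [Finset.sum_congr rfl h5, Finset.sum_const, nsmul_eq_mul]
  congr 1
  have h6 := hcount (j + 1) u (by omega)
  rw [← h6, ← Set.ncard_coe_finset]
  congr 2
  ext i
  simp only [coe_filter, Set.mem_setOf_eq, Prod.ext_iff, hJ]
  have := hdeg i
  rw [mem_range] at hj
  constructor
  · rintro ⟨h7, h8, h9⟩
    exact ⟨by omega, h9⟩
  · rintro ⟨h7, h9⟩
    exact ⟨by omega, by omega, h9⟩

lemma chi_zero (hdeg : ∀ i, 1 ≤ deg i) (hfin : ∀ n, {i | deg i = n}.Finite) (w : ℤ × ℤ) :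
    chi deg wt 0 w = if w = 0 then 1 else 0 := by
  classical
  have hJ : ∀ i, i ∈ (∅ : Finset I) ↔ deg i ≤ 0 := fun i => by
    have := hdeg i
    simp only [notMem_empty, false_iff]
    omega
  rw [chi_eq deg wt hdeg ∅ 0 hJ 0 le_rfl w]
  unfold cc
  rw [Finset.powerset_empty]
  by_cases h : w = 0
  · subst h
    rw [Finset.filter_singleton, if_pos, if_pos rfl]
    · simp
    · rw [Finset.sum_empty]; rfl
  · rw [Finset.filter_singleton, if_neg, if_neg h]
    · simp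
    · rw [Finset.sum_empty, Prod.ext_iff]
      intro hc
      exact h hc.2.symm

end

end Pool.Agent.J4H19.ABG
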