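import Mathlib
import Pool.Agent.J4H88.ABG.Act

/-! Project ABG (helper88), job HBR (helper19): `X ⊗ pq` and `p ∧ q` are sums of brackets. -/

set_option autoImplicit false
set_option linter.unusedSectionVars false
set_option linter.unusedSimpArgs false

open scoped TensorProduct

namespace Pool.Agent.J4H19.ABG

open Pool.Agent.J4H88.ABG

attribute [local instance 100] LieRing.ofAssociativeRing

universe u v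

open LieAlgebra.SpecialLinear

section

variable (𝕜 : Type u) [Field 𝕜] [CharZero 𝕜] (A : Type v) [NonUnitalNonAssocRing A] [Module 𝕜 A]
  [IsScalarTower 𝕜 A A] [SMulCommClass 𝕜 A A] [IsAlt A]

/-- the inclusion of `sl_3 ⊗ A` -/
noncomputable def inS : sl3 𝕜 ⊗[𝕜] A →ₗ[𝕜] ABG 𝕜 A := LinearMap.inl 𝕜 (sl3 𝕜 ⊗[𝕜] A) (BB 𝕜 A)

/-- the inclusion of `B(A)` -/
noncomputable def inB : BB 𝕜 A →ₗ[𝕜] ABG 𝕜 A := LinearMap.inr 𝕜 (sl3 𝕜 ⊗[𝕜] A) (BB 𝕜 A)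

theorem inS_eq (t : sl3 𝕜 ⊗[𝕜] A) : inS 𝕜 A t = ((t, 0) : (sl3 𝕜 ⊗[𝕜] A) × BB 𝕜 A) := rfl

theorem inB_eq (t : BB 𝕜 A) : inB 𝕜 A t = ((0, t) : (sl3 𝕜 ⊗[𝕜] A) × BB 𝕜 A) := rfl

/-- the span of the brackets -/
noncomputable abbrev SB : Submodule 𝕜 (ABG 𝕜 A) := Submodule.span 𝕜 {x | ∃ y z : ABG 𝕜 A, x = ⁅y, z⁆}

variable {A}

theorem brk (X Y : sl3 𝕜) (p q : A) :
    inS 𝕜 A (⁅X, Y⁆ ⊗ₜ jor 𝕜 p q) + inS 𝕜 A (slAnti 𝕜 X Y ⊗ₜ comm 𝕜 p q)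
      + inB 𝕜 A (((3⁻¹ : 𝕜) * (X.1 * Y.1).trace) • wedge 𝕜 p q) ∈ SB 𝕜 A := by
  apply Submodule.subset_span
  refine ⟨inS 𝕜 A (X ⊗ₜ p), inS 𝕜 A (Y ⊗ₜ q), ?_⟩
  refine ABG_ext 𝕜 A ?_ ?_
  · rw [lie_fst, ABG_fst_add, ABG_fst_add]
    change ⁅X, Y⁆ ⊗ₜ[𝕜] jor 𝕜 p q + slAnti 𝕜 X Y ⊗ₜ[𝕜] comm 𝕜 p q + 0 =
      brSS 𝕜 A (X ⊗ₜ p) (Y ⊗ₜ q) + actS 𝕜 A 0 (Y ⊗ₜ q) - actS 𝕜 A 0 (X ⊗ₜ p)
    rw [brSS_tmul]
    simp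
  · rw [lie_snd, ABG_snd_add, ABG_snd_add]
    change 0 + 0 + ((3⁻¹ : 𝕜) * (X.1 * Y.1).trace) • wedge 𝕜 p q =
      brSB 𝕜 A (X ⊗ₜ p) (Y ⊗ₜ q) + BBbr 𝕜 A 0 0
    rw [brSB_tmul]
    simp

theorem jor_comm (p q : A) : jor 𝕜 p q + (2⁻¹ : 𝕜) • comm 𝕜 p q = p * q := by
  simp only [jor, J4H88.ABG.comm, LinearMap.smul_apply, LinearMap.add_apply, LinearMap.sub_apply,
    LinearMap.flip_apply, LinearMap.mul_apply']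
  rw [← smul_add, add_add_sub_cancel, ← two_smul 𝕜, smul_smul]
  norm_num

theorem jor_symm (p q : A) : jor 𝕜 q p = jor 𝕜 p q := by
  simp only [jor, LinearMap.smul_apply, LinearMap.add_apply,
    LinearMap.flip_apply, LinearMap.mul_apply']
  rw [add_comm]

theorem comm_skew (p q : A) : comm 𝕜 q p = - comm 𝕜 p q := by
  simp only [J4H88.ABG.comm, LinearMap.sub_apply, LinearMap.flip_apply, LinearMap.mul_apply']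
  rw [neg_sub]

theorem wedge_skew' (p q : A) : wedge 𝕜 q p = - wedge 𝕜 p q := by
  have h := wedge_self 𝕜 (p + q)
  simp only [map_add, LinearMap.add_apply, wedge_self, zero_add, add_zero] at h
  exact eq_neg_of_add_eq_zero_left h

theorem off (X Y Z : sl3 𝕜) (h1 : ⁅X, Y⁆ = Z) (h2 : slAnti 𝕜 X Y = (2⁻¹ : 𝕜) • Z)
    (h3 : (X.1 * Y.1).trace = 0) (p q : A) : inS 𝕜 A (Z ⊗ₜ (p * q)) ∈ SB 𝕜 A := by
  have h := brk 𝕜 X Y p q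
  rw [h1, h2, h3, mul_zero, zero_smul, map_zero, add_zero, ← map_add, TensorProduct.smul_tmul,
    ← TensorProduct.tmul_add, jor_comm] at h
  exact h

theorem symS (X Y : sl3 𝕜) (p q : A) : inS 𝕜 A (⁅X, Y⁆ ⊗ₜ jor 𝕜 p q) ∈ SB 𝕜 A := by
  have h := Submodule.add_mem _ (brk 𝕜 X Y p q) (brk 𝕜 X Y q p)
  rw [jor_symm 𝕜 p q, comm_skew 𝕜 p q, wedge_skew' 𝕜 p q] at h
  have h2 := Submodule.smul_mem _ (2⁻¹ : 𝕜) h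
  have e : (2⁻¹ : 𝕜) • (inS 𝕜 A (⁅X, Y⁆ ⊗ₜ jor 𝕜 p q) + inS 𝕜 A (slAnti 𝕜 X Y ⊗ₜ comm 𝕜 p q)
      + inB 𝕜 A (((3⁻¹ : 𝕜) * (X.1 * Y.1).trace) • wedge 𝕜 p q) +
      (inS 𝕜 A (⁅X, Y⁆ ⊗ₜ jor 𝕜 p q) + inS 𝕜 A (slAnti 𝕜 X Y ⊗ₜ (-comm 𝕜 p q))
      + inB 𝕜 A (((3⁻¹ : 𝕜) * (X.1 * Y.1).trace) • (-wedge 𝕜 p q)))) =
      inS 𝕜 A (⁅X, Y⁆ ⊗ₜ jor 𝕜 p q) := by
    rw [TensorProduct.tmul_neg, smul_neg, map_neg, map_neg]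
    have : ∀ a b c : ABG 𝕜 A, a + b + c + (a + -b + -c) = (2 : 𝕜) • a := by
      intro a b c; rw [two_smul]; abel
    rw [this, smul_smul]
    norm_num
  rw [e] at h2
  exact h2

theorem antS (X Y : sl3 𝕜) (p q : A) : inS 𝕜 A (slAnti 𝕜 X Y ⊗ₜ comm 𝕜 p q)
      + inB 𝕜 A (((3⁻¹ : 𝕜) * (X.1 * Y.1).trace) • wedge 𝕜 p q) ∈ SB 𝕜 A := by
  have h := Submodule.sub_mem _ (brk 𝕜 X Y p q) (symS 𝕜 X Y p q)
  have : ∀ a b c : ABG 𝕜 A, a + b + c - a = b + c := by intro a b c; abel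
  rwa [this] at h

end

section

variable (𝕜 : Type u) [Field 𝕜]

theorem tr1 : ((e1 𝕜).1 * (f1 𝕜).1).trace = 1 := by
  simp [e1, f1, Matrix.trace]

theorem tr2 : ((e2 𝕜).1 * (f2 𝕜).1).trace = 1 := by
  simp [e2, f2, Matrix.trace]

theorem tr3 : ((e3 𝕜).1 * (f3 𝕜).1).trace = 1 := by
  simp [e3, f3, Matrix.trace]

theorem lie_h1 : ⁅e1 𝕜, f1 𝕜⁆ = h1 𝕜 := by
  apply Subtype.ext
  ext i j
  fin_cases i <;> fin_cases j <;>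
  simp [e1, f1, h1, LieSubalgebra.coe_bracket, Ring.lie_def]

theorem lie_h2 : ⁅e2 𝕜, f2 𝕜⁆ = h2 𝕜 := by
  apply Subtype.ext
  ext i j
  fin_cases i <;> fin_cases j <;>
  simp [e2, f2, h2, LieSubalgebra.coe_bracket, Ring.lie_def]

theorem lie_e1 : ⁅e3 𝕜, f2 𝕜⁆ = e1 𝕜 := by
  apply Subtype.ext
  ext i j
  fin_cases i <;> fin_cases j <;>
  simp [e3, f2, e1, LieSubalgebra.coe_bracket, Ring.lie_def]

theorem lie_e2 : ⁅f1 𝕜, e3 𝕜⁆ = e2 𝕜 := by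
  apply Subtype.ext
  ext i j
  fin_cases i <;> fin_cases j <;>
  simp [f1, e3, e2, LieSubalgebra.coe_bracket, Ring.lie_def]

theorem lie_e3 : ⁅e1 𝕜, e2 𝕜⁆ = e3 𝕜 := by
  apply Subtype.ext
  ext i j
  fin_cases i <;> fin_cases j <;>
  simp [e1, e2, e3, LieSubalgebra.coe_bracket, Ring.lie_def]

theorem lie_f1 : ⁅e2 𝕜, f3 𝕜⁆ = f1 𝕜 := by
  apply Subtype.ext
  ext i j
  fin_cases i <;> fin_cases j <;>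
  simp [e2, f3, f1, LieSubalgebra.coe_bracket, Ring.lie_def]

theorem lie_f2 : ⁅f3 𝕜, e1 𝕜⁆ = f2 𝕜 := by
  apply Subtype.ext
  ext i j
  fin_cases i <;> fin_cases j <;>
  simp [f3, e1, f2, LieSubalgebra.coe_bracket, Ring.lie_def]

theorem lie_f3 : ⁅f2 𝕜, f1 𝕜⁆ = f3 𝕜 := by
  apply Subtype.ext
  ext i j
  fin_cases i <;> fin_cases j <;>
  simp [f2, f1, f3, LieSubalgebra.coe_bracket, Ring.lie_def]

theorem tr_e1 : ((e3 𝕜).1 * (f2 𝕜).1).trace = 0 := by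
  simp [e3, f2, Matrix.trace, Fin.sum_univ_three, Matrix.mul_apply, Matrix.single_apply]

theorem tr_e2 : ((f1 𝕜).1 * (e3 𝕜).1).trace = 0 := by
  simp [f1, e3, Matrix.trace, Fin.sum_univ_three, Matrix.mul_apply, Matrix.single_apply]

theorem tr_e3 : ((e1 𝕜).1 * (e2 𝕜).1).trace = 0 := by
  simp [e1, e2, Matrix.trace, Fin.sum_univ_three, Matrix.mul_apply, Matrix.single_apply]

theorem tr_f1 : ((e2 𝕜).1 * (f3 𝕜).1).trace = 0 := by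
  simp [e2, f3, Matrix.trace, Fin.sum_univ_three, Matrix.mul_apply, Matrix.single_apply]

theorem tr_f2 : ((f3 𝕜).1 * (e1 𝕜).1).trace = 0 := by
  simp [f3, e1, Matrix.trace, Fin.sum_univ_three, Matrix.mul_apply, Matrix.single_apply]

theorem tr_f3 : ((f2 𝕜).1 * (f1 𝕜).1).trace = 0 := by
  simp [f2, f1, Matrix.trace, Fin.sum_univ_three, Matrix.mul_apply, Matrix.single_apply]

variable [CharZero 𝕜]

theorem anti_e1 : slAnti 𝕜 (e3 𝕜) (f2 𝕜) = (2⁻¹ : 𝕜) • e1 𝕜 := by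
  apply Subtype.ext
  rw [slAnti_coe]
  ext i j
  fin_cases i <;> fin_cases j <;>
  simp [e3, f2, e1, Matrix.trace, Fin.sum_univ_three, Matrix.mul_apply, Matrix.single_apply]

theorem anti_e2 : slAnti 𝕜 (f1 𝕜) (e3 𝕜) = (2⁻¹ : 𝕜) • e2 𝕜 := by
  apply Subtype.ext
  rw [slAnti_coe]
  ext i j
  fin_cases i <;> fin_cases j <;>
  simp [f1, e3, e2, Matrix.trace, Fin.sum_univ_three, Matrix.mul_apply, Matrix.single_apply]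

theorem anti_e3 : slAnti 𝕜 (e1 𝕜) (e2 𝕜) = (2⁻¹ : 𝕜) • e3 𝕜 := by
  apply Subtype.ext
  rw [slAnti_coe]
  ext i j
  fin_cases i <;> fin_cases j <;>
  simp [e1, e2, e3, Matrix.trace, Fin.sum_univ_three, Matrix.mul_apply, Matrix.single_apply]

theorem anti_f1 : slAnti 𝕜 (e2 𝕜) (f3 𝕜) = (2⁻¹ : 𝕜) • f1 𝕜 := by
  apply Subtype.ext
  rw [slAnti_coe]
  ext i j
  fin_cases i <;> fin_cases j <;>
  simp [e2, f3, f1, Matrix.trace, Fin.sum_univ_three, Matrix.mul_apply, Matrix.single_apply]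

theorem anti_f2 : slAnti 𝕜 (f3 𝕜) (e1 𝕜) = (2⁻¹ : 𝕜) • f2 𝕜 := by
  apply Subtype.ext
  rw [slAnti_coe]
  ext i j
  fin_cases i <;> fin_cases j <;>
  simp [f3, e1, f2, Matrix.trace, Fin.sum_univ_three, Matrix.mul_apply, Matrix.single_apply]

theorem anti_f3 : slAnti 𝕜 (f2 𝕜) (f1 𝕜) = (2⁻¹ : 𝕜) • f3 𝕜 := by
  apply Subtype.ext
  rw [slAnti_coe]
  ext i j
  fin_cases i <;> fin_cases j <;>
  simp [f2, f1, f3, Matrix.trace, Fin.sum_univ_three, Matrix.mul_apply, Matrix.single_apply]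

theorem anti_sum : slAnti 𝕜 (e1 𝕜) (f1 𝕜) + slAnti 𝕜 (e2 𝕜) (f2 𝕜) + slAnti 𝕜 (e3 𝕜) (f3 𝕜) = 0 := by
  apply Subtype.ext
  change (slAnti 𝕜 (e1 𝕜) (f1 𝕜)).1 + (slAnti 𝕜 (e2 𝕜) (f2 𝕜)).1 + (slAnti 𝕜 (e3 𝕜) (f3 𝕜)).1 = 0
  rw [slAnti_coe, slAnti_coe, slAnti_coe, tr1, tr2, tr3]
  ext i j
  fin_cases i <;> fin_cases j <;>
  simp [e1, f1, e2, f2, e3, f3] <;> ring

theorem h1_eq : h1 𝕜 = (-2 : 𝕜) • slAnti 𝕜 (e1 𝕜) (f1 𝕜) - (4 : 𝕜) • slAnti 𝕜 (e2 𝕜) (f2 𝕜) := by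
  apply Subtype.ext
  change (h1 𝕜).1 = (-2 : 𝕜) • (slAnti 𝕜 (e1 𝕜) (f1 𝕜)).1 - (4 : 𝕜) • (slAnti 𝕜 (e2 𝕜) (f2 𝕜)).1
  rw [slAnti_coe, slAnti_coe, tr1, tr2]
  ext i j
  fin_cases i <;> fin_cases j <;>
  simp [e1, f1, e2, f2, h1] <;> ring

theorem h2_eq : h2 𝕜 = (4 : 𝕜) • slAnti 𝕜 (e1 𝕜) (f1 𝕜) + (2 : 𝕜) • slAnti 𝕜 (e2 𝕜) (f2 𝕜) := by
  apply Subtype.ext
  change (h2 𝕜).1 = (4 : 𝕜) • (slAnti 𝕜 (e1 𝕜) (f1 𝕜)).1 + (2 : 𝕜) • (slAnti 𝕜 (e2 𝕜) (f2 𝕜)).1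
  rw [slAnti_coe, slAnti_coe, tr1, tr2]
  ext i j
  fin_cases i <;> fin_cases j <;>
  simp [e1, f1, e2, f2, h2] <;> ring

omit [CharZero 𝕜] in
/-- coordinates of `sl_3` -/
theorem sl3_eq (X : sl3 𝕜) : X = (X.1 0 1) • e1 𝕜 + (X.1 1 2) • e2 𝕜 + (X.1 0 2) • e3 𝕜
    + (X.1 1 0) • f1 𝕜 + (X.1 2 1) • f2 𝕜 + (X.1 2 0) • f3 𝕜
    + (X.1 0 0) • h1 𝕜 + (X.1 0 0 + X.1 1 1) • h2 𝕜 := by
  have ht : X.1.trace = 0 := by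
    have h : X.1 ∈ LinearMap.ker (Matrix.traceLinearMap (Fin 3) 𝕜 𝕜) := X.2
    exact LinearMap.mem_ker.1 h
  rw [Matrix.trace_fin_three] at ht
  apply Subtype.ext
  change X.1 = (X.1 0 1) • (e1 𝕜).1 + (X.1 1 2) • (e2 𝕜).1 + (X.1 0 2) • (e3 𝕜).1
    + (X.1 1 0) • (f1 𝕜).1 + (X.1 2 1) • (f2 𝕜).1 + (X.1 2 0) • (f3 𝕜).1
    + (X.1 0 0) • (h1 𝕜).1 + (X.1 0 0 + X.1 1 1) • (h2 𝕜).1
  ext i j
  fin_cases i <;> fin_cases j <;>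
  simp [e1, f1, e2, f2, e3, f3, h1, h2]
  linear_combination ht

end

section

variable (𝕜 : Type u) [Field 𝕜] [CharZero 𝕜] {A : Type v} [NonUnitalNonAssocRing A] [Module 𝕜 A]
  [IsScalarTower 𝕜 A A] [SMulCommClass 𝕜 A A] [IsAlt A]

/-- `p ∧ q` is a sum of brackets -/
theorem hbr_B (p q : A) : inB 𝕜 A (wedge 𝕜 p q) ∈ SB 𝕜 A := by
  have h1 := antS 𝕜 (e1 𝕜) (f1 𝕜) p q
  have h2 := antS 𝕜 (e2 𝕜) (f2 𝕜) p q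
  have h3 := antS 𝕜 (e3 𝕜) (f3 𝕜) p q
  rw [tr1, mul_one] at h1
  rw [tr2, mul_one] at h2
  rw [tr3, mul_one] at h3
  have h := Submodule.add_mem _ (Submodule.add_mem _ h1 h2) h3
  have e : ∀ a b c d : ABG 𝕜 A, a + d + (b + d) + (c + d) = (a + b + c) + (3 : 𝕜) • d := by
    intro a b c d
    have : (3 : 𝕜) • d = d + d + d := by
      rw [show (3 : 𝕜) = 1 + 1 + 1 by norm_num, add_smul, add_smul, one_smul]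
    rw [this]; abel
  rw [e, ← map_add, ← map_add, ← TensorProduct.add_tmul, ← TensorProduct.add_tmul, anti_sum,
    TensorProduct.zero_tmul, map_zero, zero_add, ← map_smul, smul_smul] at h
  norm_num at h
  exact h

theorem hbr_ant (X Y : sl3 𝕜) (p q : A) : inS 𝕜 A (slAnti 𝕜 X Y ⊗ₜ comm 𝕜 p q) ∈ SB 𝕜 A := by
  have h1 := antS 𝕜 X Y p q
  have h2 := Submodule.smul_mem _ ((3⁻¹ : 𝕜) * (X.1 * Y.1).trace) (hbr_B 𝕜 p q)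
  rw [← map_smul] at h2
  exact (Submodule.add_mem_iff_left _ h2).1 h1

/-- `X ⊗ pq` is a sum of brackets -/
theorem hbr_sl (X : sl3 𝕜) (p q : A) : inS 𝕜 A (X ⊗ₜ (p * q)) ∈ SB 𝕜 A := by
  have he1 : inS 𝕜 A (e1 𝕜 ⊗ₜ (p * q)) ∈ SB 𝕜 A :=
    off 𝕜 _ _ _ (lie_e1 𝕜) (anti_e1 𝕜) (tr_e1 𝕜) p q
  have he2 : inS 𝕜 A (e2 𝕜 ⊗ₜ (p * q)) ∈ SB 𝕜 A :=
    off 𝕜 _ _ _ (lie_e2 𝕜) (anti_e2 𝕜) (tr_e2 𝕜) p q
  have he3 : inS 𝕜 A (e3 𝕜 ⊗ₜ (p * q)) ∈ SB 𝕜 A :=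
    off 𝕜 _ _ _ (lie_e3 𝕜) (anti_e3 𝕜) (tr_e3 𝕜) p q
  have hf1 : inS 𝕜 A (f1 𝕜 ⊗ₜ (p * q)) ∈ SB 𝕜 A :=
    off 𝕜 _ _ _ (lie_f1 𝕜) (anti_f1 𝕜) (tr_f1 𝕜) p q
  have hf2 : inS 𝕜 A (f2 𝕜 ⊗ₜ (p * q)) ∈ SB 𝕜 A :=
    off 𝕜 _ _ _ (lie_f2 𝕜) (anti_f2 𝕜) (tr_f2 𝕜) p q
  have hf3 : inS 𝕜 A (f3 𝕜 ⊗ₜ (p * q)) ∈ SB 𝕜 A :=
    off 𝕜 _ _ _ (lie_f3 𝕜) (anti_f3 𝕜) (tr_f3 𝕜) p q
  have hc1 : inS 𝕜 A (h1 𝕜 ⊗ₜ comm 𝕜 p q) ∈ SB 𝕜 A := by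
    rw [h1_eq, TensorProduct.sub_tmul, ← TensorProduct.smul_tmul', ← TensorProduct.smul_tmul', map_sub, map_smul, map_smul]
    exact Submodule.sub_mem _ (Submodule.smul_mem _ _ (hbr_ant 𝕜 _ _ p q))
      (Submodule.smul_mem _ _ (hbr_ant 𝕜 _ _ p q))
  have hc2 : inS 𝕜 A (h2 𝕜 ⊗ₜ comm 𝕜 p q) ∈ SB 𝕜 A := by
    rw [h2_eq, TensorProduct.add_tmul, ← TensorProduct.smul_tmul', ← TensorProduct.smul_tmul', map_add, map_smul, map_smul]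
    exact Submodule.add_mem _ (Submodule.smul_mem _ _ (hbr_ant 𝕜 _ _ p q))
      (Submodule.smul_mem _ _ (hbr_ant 𝕜 _ _ p q))
  have hh1 : inS 𝕜 A (h1 𝕜 ⊗ₜ (p * q)) ∈ SB 𝕜 A := by
    have hs := symS 𝕜 (e1 𝕜) (f1 𝕜) p q
    rw [lie_h1] at hs
    rw [← jor_comm 𝕜 p q, TensorProduct.tmul_add, TensorProduct.tmul_smul, map_add, map_smul]
    exact Submodule.add_mem _ hs (Submodule.smul_mem _ _ hc1)
  have hh2 : inS 𝕜 A (h2 𝕜 ⊗ₜ (p * q)) ∈ SB 𝕜 A := by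
    have hs := symS 𝕜 (e2 𝕜) (f2 𝕜) p q
    rw [lie_h2] at hs
    rw [← jor_comm 𝕜 p q, TensorProduct.tmul_add, TensorProduct.tmul_smul, map_add, map_smul]
    exact Submodule.add_mem _ hs (Submodule.smul_mem _ _ hc2)
  have key : ∀ (c : 𝕜) (Y : sl3 𝕜), inS 𝕜 A (Y ⊗ₜ (p * q)) ∈ SB 𝕜 A →
      inS 𝕜 A ((c • Y) ⊗ₜ (p * q)) ∈ SB 𝕜 A := by
    intro c Y hY
    rw [← TensorProduct.smul_tmul', map_smul]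
    exact Submodule.smul_mem _ _ hY
  rw [sl3_eq 𝕜 X]
  simp only [TensorProduct.add_tmul, map_add]
  exact Submodule.add_mem _ (Submodule.add_mem _ (Submodule.add_mem _ (Submodule.add_mem _
    (Submodule.add_mem _ (Submodule.add_mem _ (Submodule.add_mem _ (key _ _ he1) (key _ _ he2))
    (key _ _ he3)) (key _ _ hf1)) (key _ _ hf2)) (key _ _ hf3)) (key _ _ hh1)) (key _ _ hh2)

end

end Pool.Agent.J4H19.ABG
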