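import Mathlib

/-! Project ABG (helper88), job NUM (helper19), part 3: tables of integers. -/

set_option autoImplicit false

open Finset

namespace Pool.Agent.J4H19.ABG

/-- tables of integers -/
abbrev Tab := List (List ℤ)

def addR : List ℤ → List ℤ → List ℤ
  | [], s => s
  | x :: r, [] => x :: r
  | x :: r, y :: s => (x + y) :: addR r s

def smulR (c : ℤ) : List ℤ → List ℤ
  | [] => []
  | x :: r => (c * x) :: smulR c r

def shR : ℕ → List ℤ → List ℤ
  | 0, r => r
  | d + 1, r => 0 :: shR d r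

def addT : Tab → Tab → Tab
  | [], s => s
  | x :: r, [] => x :: r
  | x :: r, y :: s => addR x y :: addT r s

def smulT (c : ℤ) : Tab → Tab
  | [] => []
  | x :: r => smulR c x :: smulT c r

def shY (d : ℕ) : Tab → Tab
  | [] => []
  | x :: r => shR d x :: shY d r

def shX : ℕ → Tab → Tab
  | 0, r => r
  | d + 1, r => [] :: shX d r

def sumT (f : ℕ → Tab) : ℕ → Tab
  | 0 => []
  | n + 1 => addT (sumT f n) (f n)

def isZR : List ℤ → Bool
  | [] => true
  | x :: r => (x == 0) && isZR r

def isZ : Tab → Bool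
  | [] => true
  | x :: r => isZR x && isZ r

/-- entry of a row -/
def rz : List ℤ → ℤ → ℤ
  | [], _ => 0
  | x :: r, Y => if Y = 0 then x else rz r (Y - 1)

/-- entry of a table -/
def gz : Tab → ℤ → ℤ → ℤ
  | [], _, _ => 0
  | x :: r, X, Y => if X = 0 then rz x Y else gz r (X - 1) Y

lemma rz_neg (r : List ℤ) (Y : ℤ) (h : Y < 0) : rz r Y = 0 := by
  induction r generalizing Y with
  | nil => rfl
  | cons x r ih => rw [rz, if_neg (by omega), ih _ (by omega)]

lemma gz_neg (T : Tab) (X Y : ℤ) (h : X < 0) : gz T X Y = 0 := by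
  induction T generalizing X with
  | nil => rfl
  | cons x r ih => rw [gz, if_neg (by omega), ih _ (by omega)]

lemma rz_add (r s : List ℤ) (Y : ℤ) : rz (addR r s) Y = rz r Y + rz s Y := by
  induction r generalizing s Y with
  | nil => simp [addR, rz]
  | cons x r ih =>
    cases s with
    | nil => simp [addR, rz]
    | cons y s =>
      simp only [addR, rz]
      split_ifs
      · rfl
      · exact ih s _

lemma rz_smul (c : ℤ) (r : List ℤ) (Y : ℤ) : rz (smulR c r) Y = c * rz r Y := by
  induction r generalizing Y with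
  | nil => simp [smulR, rz]
  | cons x r ih =>
    simp only [smulR, rz]
    split_ifs
    · rfl
    · exact ih _

lemma rz_sh (d : ℕ) (r : List ℤ) (Y : ℤ) : rz (shR d r) Y = rz r (Y - d) := by
  induction d generalizing Y with
  | zero => simp [shR]
  | succ d ih =>
    simp only [shR, rz]
    split_ifs with h
    · rw [rz_neg]; push_cast; omega
    · rw [ih]; congr 1; push_cast; ring

lemma gz_add (r s : Tab) (X Y : ℤ) : gz (addT r s) X Y = gz r X Y + gz s X Y := by
  induction r generalizing s X with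
  | nil => simp [addT, gz]
  | cons x r ih =>
    cases s with
    | nil => simp [addT, gz]
    | cons y s =>
      simp only [addT, gz]
      split_ifs
      · exact rz_add _ _ _
      · exact ih s _

lemma gz_smul (c : ℤ) (r : Tab) (X Y : ℤ) : gz (smulT c r) X Y = c * gz r X Y := by
  induction r generalizing X with
  | nil => simp [smulT, gz]
  | cons x r ih =>
    simp only [smulT, gz]
    split_ifs
    · exact rz_smul _ _ _
    · exact ih _

lemma gz_shY (d : ℕ) (r : Tab) (X Y : ℤ) : gz (shY d r) X Y = gz r X (Y - d) := by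
  induction r generalizing X with
  | nil => simp [shY, gz]
  | cons x r ih =>
    simp only [shY, gz]
    split_ifs
    · exact rz_sh _ _ _
    · exact ih _

lemma gz_shX (d : ℕ) (r : Tab) (X Y : ℤ) : gz (shX d r) X Y = gz r (X - d) Y := by
  induction d generalizing X with
  | zero => simp [shX]
  | succ d ih =>
    simp only [shX, gz]
    split_ifs with h
    · rw [gz_neg]
      · rfl
      · push_cast; omega
    · rw [ih]; congr 1; push_cast; ring

lemma gz_sum (f : ℕ → Tab) (n : ℕ) (X Y : ℤ) :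
    gz (sumT f n) X Y = ∑ i ∈ range n, gz (f i) X Y := by
  induction n with
  | zero => simp [sumT, gz]
  | succ n ih => rw [sumT, gz_add, ih, Finset.sum_range_succ]

lemma rz_isZ (r : List ℤ) (h : isZR r = true) (Y : ℤ) : rz r Y = 0 := by
  induction r generalizing Y with
  | nil => rfl
  | cons x r ih =>
    simp only [isZR, Bool.and_eq_true, beq_iff_eq] at h
    rw [rz, ih h.2, h.1, ite_self]

lemma gz_isZ (r : Tab) (h : isZ r = true) (X Y : ℤ) : gz r X Y = 0 := by
  induction r generalizing X with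
  | nil => rfl
  | cons x r ih =>
    simp only [isZ, Bool.and_eq_true] at h
    rw [gz, ih h.2, rz_isZ x h.1, ite_self]

/-- the shifts of a table by `e`-multiples of the roots and `0`, in the coordinates of the tables -/
def sh (x y : ℕ) (T : Tab) : Tab := shX x (shY y T)

lemma gz_sh (x y : ℕ) (T : Tab) (X Y : ℤ) : gz (sh x y T) X Y = gz T (X - x) (Y - y) := by
  rw [sh, gz_shX, gz_shY]

/-- the part of the recursion for fixed `j` -/
def blk (T : ℕ → Tab) (n j : ℕ) (A B : ℤ) : Tab :=
  sumT (fun l =>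
    addT (smulT (2 * A + B) (sh ((l + 1) * (j + 1)) ((l + 1) * (j + 1)) (T (n - (l + 1) * (j + 1)))))
      (smulT A (addT (addT (addT (sh ((l + 1) * (j + 2)) ((l + 1) * (j + 1)) (T (n - (l + 1) * (j + 1))))
        (sh ((l + 1) * (j + 1)) ((l + 1) * (j + 2)) (T (n - (l + 1) * (j + 1)))))
        (addT (sh ((l + 1) * (j + 2)) ((l + 1) * (j + 2)) (T (n - (l + 1) * (j + 1))))
        (sh ((l + 1) * j) ((l + 1) * (j + 1)) (T (n - (l + 1) * (j + 1))))))
        (addT (sh ((l + 1) * (j + 1)) ((l + 1) * j) (T (n - (l + 1) * (j + 1))))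
        (sh ((l + 1) * j) ((l + 1) * j) (T (n - (l + 1) * (j + 1)))))))) (n / (j + 1))

/-- the recursion: part of `j + 1 ≤ J` -/
def RR (T : ℕ → Tab) (n J : ℕ) (a b : ℕ → ℕ) : Tab :=
  sumT (fun j => smulT ((j + 1 : ℕ) : ℤ) (blk T n j (a (j + 1)) (b (j + 1)))) J

lemma gz_RR (T : ℕ → Tab) (n J : ℕ) (a b : ℕ → ℕ) (X Y : ℤ) :
    gz (RR T n J a b) X Y = ∑ j ∈ range J, ((j + 1 : ℕ) : ℤ) * ∑ l ∈ range (n / (j + 1)),
      ((2 * a (j + 1) + b (j + 1)) * gz (T (n - (l + 1) * (j + 1)))
          (X - (l + 1) * (j + 1)) (Y - (l + 1) * (j + 1))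
        + a (j + 1) * (gz (T (n - (l + 1) * (j + 1))) (X - (l + 1) * (j + 2)) (Y - (l + 1) * (j + 1))
          + gz (T (n - (l + 1) * (j + 1))) (X - (l + 1) * (j + 1)) (Y - (l + 1) * (j + 2))
          + gz (T (n - (l + 1) * (j + 1))) (X - (l + 1) * (j + 2)) (Y - (l + 1) * (j + 2))
          + gz (T (n - (l + 1) * (j + 1))) (X - (l + 1) * j) (Y - (l + 1) * (j + 1))
          + gz (T (n - (l + 1) * (j + 1))) (X - (l + 1) * (j + 1)) (Y - (l + 1) * j)
          + gz (T (n - (l + 1) * (j + 1))) (X - (l + 1) * j) (Y - (l + 1) * j))) := by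
  unfold RR blk
  rw [gz_sum]
  apply Finset.sum_congr rfl
  intro j _
  rw [gz_smul, gz_sum]
  congr 1
  apply Finset.sum_congr rfl
  intro l _
  simp only [gz_add, gz_smul, gz_sh]
  push_cast
  ring

end Pool.Agent.J4H19.ABG
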