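import Mathlib
import Pool.Agent.J4H19.ABG.Tab

/-! Project ABG (helper88), job NUM (helper19), part 4: the tables of the signed counts. -/

set_option autoImplicit false

open Finset

namespace Pool.Agent.J4H19.ABG

def T0 : Tab :=
  [[1]]

def T1 : Tab :=
  [[-4, -4],
   [-4, -8, -4],
   [0, -4, -4]]

def T2 : Tab :=
  [[6, 16, 6],
   [16, 32, 32, 16],
   [6, 32, 38, 32, 6],
   [0, 16, 32, 32, 16],
   [0, 0, 6, 16, 6]]

def T3 : Tab :=
  [[-4, -24, -24, -4],
   [-24, -48, -48, -48, -24],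
   [-24, -48, -52, -52, -48, -24],
   [-4, -48, -52, -56, -52, -48, -4],
   [0, -24, -48, -52, -52, -48, -24],
   [0, 0, -24, -48, -48, -48, -24],
   [0, 0, 0, -4, -24, -24, -4]]

def T4 : Tab :=
  [[1, 16, 36, 16, 1],
   [16, 32, -48, -48, 32, 16],
   [36, -48, -192, -256, -192, -48, 36],
   [16, -48, -256, -384, -384, -256, -48, 16],
   [1, 32, -192, -384, -448, -384, -192, 32, 1],
   [0, 16, -48, -256, -384, -384, -256, -48, 16],
   [0, 0, 36, -48, -192, -256, -192, -48, 36],
   [0, 0, 0, 16, 32, -48, -48, 32, 16],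
   [0, 0, 0, 0, 1, 16, 36, 16, 1]]

def T5 : Tab :=
  [[0, -4, -24, -24, -4],
   [-4, -8, 172, 352, 172, -8, -4],
   [-24, 172, 668, 784, 784, 668, 172, -24],
   [-24, 352, 784, 976, 976, 976, 784, 352, -24],
   [-4, 172, 784, 976, 1052, 1052, 976, 784, 172, -4],
   [0, -8, 668, 976, 1052, 1128, 1052, 976, 668, -8],
   [0, -4, 172, 784, 976, 1052, 1052, 976, 784, 172, -4],
   [0, 0, -24, 352, 784, 976, 976, 976, 784, 352, -24],
   [0, 0, 0, -24, 172, 668, 784, 784, 668, 172, -24],
   [0, 0, 0, 0, -4, -8, 172, 352, 172, -8, -4],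
   [0, 0, 0, 0, 0, 0, -4, -24, -24, -4]]

def T6 : Tab :=
  [[0, 0, 6, 16, 6],
   [0, 0, -144, -528, -528, -144],
   [6, -144, -818, -656, 4, -656, -818, -144, 6],
   [16, -528, -656, 736, 1536, 1536, 736, -656, -528, 16],
   [6, -528, 4, 1536, 2876, 3056, 2876, 1536, 4, -528, 6],
   [0, -144, -656, 1536, 3056, 3776, 3776, 3056, 1536, -656, -144],
   [0, 0, -818, 736, 2876, 3776, 4316, 3776, 2876, 736, -818],
   [0, 0, -144, -656, 1536, 3056, 3776, 3776, 3056, 1536, -656, -144],
   [0, 0, 6, -528, 4, 1536, 2876, 3056, 2876, 1536, 4, -528, 6],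
   [0, 0, 0, 16, -528, -656, 736, 1536, 1536, 736, -656, -528, 16],
   [0, 0, 0, 0, 6, -144, -818, -656, 4, -656, -818, -144, 6],
   [0, 0, 0, 0, 0, 0, 0, -144, -528, -528, -144],
   [0, 0, 0, 0, 0, 0, 0, 0, 6, 16, 6]]

def T7 : Tab :=
  [[0, 0, 0, -4, -4],
   [0, 0, 40, 336, 592, 336, 40],
   [0, 40, 460, -68, -2672, -2672, -68, 460, 40],
   [-4, 336, -68, -4856, -7560, -6464, -7560, -4856, -68, 336, -4],
   [-4, 592, -2672, -7560, -7340, -5848, -5848, -7340, -7560, -2672, 592, -4],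
   [0, 336, -2672, -6464, -5848, -2640, -2640, -2640, -5848, -6464, -2672, 336],
   [0, 40, -68, -7560, -5848, -2640, -924, -924, -2640, -5848, -7560, -68, 40],
   [0, 0, 460, -4856, -7340, -2640, -924, 792, -924, -2640, -7340, -4856, 460],
   [0, 0, 40, -68, -7560, -5848, -2640, -924, -924, -2640, -5848, -7560, -68, 40],
   [0, 0, 0, 336, -2672, -6464, -5848, -2640, -2640, -2640, -5848, -6464, -2672, 336],
   [0, 0, 0, -4, 592, -2672, -7560, -7340, -5848, -5848, -7340, -7560, -2672, 592, -4],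
   [0, 0, 0, 0, -4, 336, -68, -4856, -7560, -6464, -7560, -4856, -68, 336, -4],
   [0, 0, 0, 0, 0, 0, 40, 460, -68, -2672, -2672, -68, 460, 40],
   [0, 0, 0, 0, 0, 0, 0, 0, 40, 336, 592, 336, 40],
   [0, 0, 0, 0, 0, 0, 0, 0, 0, 0, -4, -4]]

def T8 : Tab :=
  [[0, 0, 0, 0, 1],
   [0, 0, 0, -80, -304, -304, -80],
   [0, 0, -100, 336, 3872, 6912, 3872, 336, -100],
   [0, -80, 336, 6432, 10368, 1088, 1088, 10368, 6432, 336, -80],
   [1, -304, 3872, 10368, -5427, -22160, -22424, -22160, -5427, 10368, 3872, -304, 1],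
   [0, -304, 6912, 1088, -22160, -37312, -38336, -38336, -37312, -22160, 1088, 6912, -304],
   [0, -80, 3872, 1088, -22424, -38336, -36372, -40096, -36372, -38336, -22424, 1088, 3872, -80],
   [0, 0, 336, 10368, -22160, -38336, -40096, -40832, -40832, -40096, -38336, -22160, 10368, 336],
   [0, 0, -100, 6432, -5427, -37312, -36372, -40832, -37844, -40832, -36372, -37312, -5427, 6432, -100],
   [0, 0, 0, 336, 10368, -22160, -38336, -40096, -40832, -40832, -40096, -38336, -22160, 10368, 336],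
   [0, 0, 0, -80, 3872, 1088, -22424, -38336, -36372, -40096, -36372, -38336, -22424, 1088, 3872, -80],
   [0, 0, 0, 0, -304, 6912, 1088, -22160, -37312, -38336, -38336, -37312, -22160, 1088, 6912, -304],
   [0, 0, 0, 0, 1, -304, 3872, 10368, -5427, -22160, -22424, -22160, -5427, 10368, 3872, -304, 1],
   [0, 0, 0, 0, 0, 0, -80, 336, 6432, 10368, 1088, 1088, 10368, 6432, 336, -80],
   [0, 0, 0, 0, 0, 0, 0, 0, -100, 336, 3872, 6912, 3872, 336, -100],
   [0, 0, 0, 0, 0, 0, 0, 0, 0, 0, -80, -304, -304, -80],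
   [0, 0, 0, 0, 0, 0, 0, 0, 0, 0, 0, 0, 1]]

def TT (n : ℕ) : Tab := [T0, T1, T2, T3, T4, T5, T6, T7, T8].getD n []

def AA (n : ℕ) : ℕ := [0, 4, 16, 68, 288, 1196, 4816, 18752, 70784, 261176].getD n 0

def BB (n : ℕ) : ℕ := [0, 0, 6, 40, 201, 936, 4038, 16736, 66196, 252864].getD n 0

/-- the alternating sum of `ph` in root coordinates -/
def phT (T : Tab) (X Y : ℤ) : ℤ :=
  gz T X Y - gz T (X + 1) Y - gz T X (Y + 1) + gz T (X + 2) (Y + 1) + gz T (X + 1) (Y + 2)
    - gz T (X + 2) (Y + 2)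

def chk (n : ℕ) : Bool := isZ (addT (smulT n (TT n)) (RR TT n n AA BB))

def chk0 (n : ℕ) : Bool := phT (RR TT n (n - 1) AA BB) n n == -(n * BB n)

def chk1 (n : ℕ) : Bool := phT (RR TT n (n - 1) AA BB) (n + 1) (n + 1) == -(n * AA n)

theorem chk_1 : chk 1 = true := by decide +kernel
theorem chk_2 : chk 2 = true := by decide +kernel
theorem chk_3 : chk 3 = true := by decide +kernel
theorem chk_4 : chk 4 = true := by decide +kernel
theorem chk_5 : chk 5 = true := by decide +kernel
theorem chk_6 : chk 6 = true := by decide +kernel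
theorem chk_7 : chk 7 = true := by decide +kernel
theorem chk_8 : chk 8 = true := by decide +kernel
theorem chk0_2 : chk0 2 = true := by decide +kernel
theorem chk0_3 : chk0 3 = true := by decide +kernel
theorem chk0_4 : chk0 4 = true := by decide +kernel
theorem chk0_5 : chk0 5 = true := by decide +kernel
theorem chk0_6 : chk0 6 = true := by decide +kernel
theorem chk0_7 : chk0 7 = true := by decide +kernel
theorem chk0_8 : chk0 8 = true := by decide +kernel
theorem chk0_9 : chk0 9 = true := by decide +kernel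
theorem chk1_2 : chk1 2 = true := by decide +kernel
theorem chk1_3 : chk1 3 = true := by decide +kernel
theorem chk1_4 : chk1 4 = true := by decide +kernel
theorem chk1_5 : chk1 5 = true := by decide +kernel
theorem chk1_6 : chk1 6 = true := by decide +kernel
theorem chk1_7 : chk1 7 = true := by decide +kernel
theorem chk1_8 : chk1 8 = true := by decide +kernel
theorem chk1_9 : chk1 9 = true := by decide +kernel

end Pool.Agent.J4H19.ABG
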