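import Mathlib
import Pool.Agent.J4H88.ABG.Comb
import Pool.Agent.J4H19.ABG.Chi
import Pool.Agent.J4H19.ABG.Num0

/-! Project ABG (helper88), job NUM (helper19): the recursion for the dimensions. -/

set_option autoImplicit false

open Finset

namespace Pool.Agent.J4H19.ABG

open Pool.Agent.J4H88.ABG

universe u

lemma sum_UU (f : ℤ × ℤ → ℤ) : ∑ u ∈ UU, f u = f (0, 0) + (f (2, -1) + (f (-1, 2) + (f (1, 1) +
    (f (-2, 1) + (f (1, -2) + f (-1, -1)))))) := by
  unfold UU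
  rw [Finset.sum_insert (by decide), Finset.sum_insert (by decide), Finset.sum_insert (by decide),
    Finset.sum_insert (by decide), Finset.sum_insert (by decide), Finset.sum_insert (by decide),
    Finset.sum_singleton]

/-- the delta function at the origin -/
def d0 (x y : ℤ) : ℤ := if x = 0 ∧ y = 0 then 1 else 0

/-- the character of one degree -/
def Mn (A B : ℤ) (x y : ℤ) : ℤ :=
  (2 * A + B) * d0 x y + A * (d0 (x - 1) y + d0 x (y - 1) + d0 (x - 1) (y - 1)
    + d0 (x + 1) y + d0 x (y + 1) + d0 (x + 1) (y + 1))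

section

variable {I : Type u} (deg : I → ℕ) (wt : I → ℤ × ℤ)

/-- `chi` in root coordinates -/
noncomputable def gg (n : ℕ) (x y : ℤ) : ℤ := chi deg wt n (2 * x - y, 2 * y - x)

variable (a b : ℕ → ℕ)

lemma gg_rec (hdeg : ∀ i, 1 ≤ deg i) (hfin : ∀ n, {i | deg i = n}.Finite)
    (hcount : ∀ n w, 1 ≤ n → {i | deg i = n ∧ wt i = w}.ncard = mlt a b n w)
    (n : ℕ) (x y : ℤ) :
    (n : ℤ) * gg deg wt n x y = - ∑ j ∈ range n, ((j + 1 : ℕ) : ℤ) *
      ∑ l ∈ range (n / (j + 1)),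
      ((2 * a (j + 1) + b (j + 1)) * gg deg wt (n - (l + 1) * (j + 1)) x y
        + a (j + 1) * (gg deg wt (n - (l + 1) * (j + 1)) (x - (l + 1)) y
          + gg deg wt (n - (l + 1) * (j + 1)) x (y - (l + 1))
          + gg deg wt (n - (l + 1) * (j + 1)) (x - (l + 1)) (y - (l + 1))
          + gg deg wt (n - (l + 1) * (j + 1)) (x + (l + 1)) y
          + gg deg wt (n - (l + 1) * (j + 1)) x (y + (l + 1))
          + gg deg wt (n - (l + 1) * (j + 1)) (x + (l + 1)) (y + (l + 1)))) := by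
  unfold gg
  rw [chi_rec deg wt a b hdeg hfin hcount]
  congr 1
  apply Finset.sum_congr rfl
  intro j _
  rw [sum_UU]
  have m0 : mlt a b (j + 1) (0, 0) = 2 * a (j + 1) + b (j + 1) := by simp [mlt]
  have m1 : mlt a b (j + 1) (2, -1) = a (j + 1) := by simp [mlt]
  have m2 : mlt a b (j + 1) (-1, 2) = a (j + 1) := by simp [mlt]
  have m3 : mlt a b (j + 1) (1, 1) = a (j + 1) := by simp [mlt]
  have m4 : mlt a b (j + 1) (-2, 1) = a (j + 1) := by simp [mlt]
  have m5 : mlt a b (j + 1) (1, -2) = a (j + 1) := by simp [mlt]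
  have m6 : mlt a b (j + 1) (-1, -1) = a (j + 1) := by simp [mlt]
  rw [m0, m1, m2, m3, m4, m5, m6]
  have e0 : ∀ l : ℕ, ((2 * x - y, 2 * y - x) : ℤ × ℤ) - (l + 1) • ((0, 0) : ℤ × ℤ)
      = (2 * x - y, 2 * y - x) := by
    intro l; ext <;> simp
  have e1 : ∀ l : ℕ, ((2 * x - y, 2 * y - x) : ℤ × ℤ) - (l + 1) • ((2, -1) : ℤ × ℤ)
      = (2 * (x - (l + 1)) - y, 2 * y - (x - (l + 1))) := by
    intro l; ext <;> simp <;> ring
  have e2 : ∀ l : ℕ, ((2 * x - y, 2 * y - x) : ℤ × ℤ) - (l + 1) • ((-1, 2) : ℤ × ℤ)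
      = (2 * x - (y - (l + 1)), 2 * (y - (l + 1)) - x) := by
    intro l; ext <;> simp <;> ring
  have e3 : ∀ l : ℕ, ((2 * x - y, 2 * y - x) : ℤ × ℤ) - (l + 1) • ((1, 1) : ℤ × ℤ)
      = (2 * (x - (l + 1)) - (y - (l + 1)), 2 * (y - (l + 1)) - (x - (l + 1))) := by
    intro l; ext <;> simp <;> ring
  have e4 : ∀ l : ℕ, ((2 * x - y, 2 * y - x) : ℤ × ℤ) - (l + 1) • ((-2, 1) : ℤ × ℤ)
      = (2 * (x + (l + 1)) - y, 2 * y - (x + (l + 1))) := by
    intro l; ext <;> simp <;> ring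
  have e5 : ∀ l : ℕ, ((2 * x - y, 2 * y - x) : ℤ × ℤ) - (l + 1) • ((1, -2) : ℤ × ℤ)
      = (2 * x - (y + (l + 1)), 2 * (y + (l + 1)) - x) := by
    intro l; ext <;> simp <;> ring
  have e6 : ∀ l : ℕ, ((2 * x - y, 2 * y - x) : ℤ × ℤ) - (l + 1) • ((-1, -1) : ℤ × ℤ)
      = (2 * (x + (l + 1)) - (y + (l + 1)), 2 * (y + (l + 1)) - (x + (l + 1))) := by
    intro l; ext <;> simp <;> ring
  simp only [e0, e1, e2, e3, e4, e5, e6]
  rw [Finset.sum_add_distrib, ← Finset.mul_sum, ← Finset.mul_sum]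
  simp only [Finset.sum_add_distrib]
  push_cast
  ring

lemma gg_zero (hdeg : ∀ i, 1 ≤ deg i) (hfin : ∀ n, {i | deg i = n}.Finite) (x y : ℤ) :
    gg deg wt 0 x y = d0 x y := by
  unfold gg d0
  rw [chi_zero deg wt hdeg hfin]
  have : ((2 * x - y, 2 * y - x) : ℤ × ℤ) = 0 ↔ x = 0 ∧ y = 0 := by
    rw [Prod.ext_iff]
    simp only [Prod.fst_zero, Prod.snd_zero]
    constructor
    · rintro ⟨h1, h2⟩; constructor <;> omega
    · rintro ⟨h1, h2⟩; constructor <;> omega
  simp only [this]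

/-- one step of the recursion, tables of degree `< n` known -/
lemma gg_step (hdeg : ∀ i, 1 ≤ deg i) (hfin : ∀ n, {i | deg i = n}.Finite)
    (hcount : ∀ n w, 1 ≤ n → {i | deg i = n ∧ wt i = w}.ncard = mlt a b n w)
    (n : ℕ) (hn : 1 ≤ n)
    (hT : ∀ m < n, ∀ x y, gg deg wt m x y = gz (TT m) (x + m) (y + m))
    (ha : ∀ j, 1 ≤ j → j < n → a j = AA j ∧ b j = BB j) (x y : ℤ) :
    (n : ℤ) * gg deg wt n x y =
      -(gz (RR TT n (n - 1) AA BB) (x + n) (y + n) + n * Mn (a n) (b n) x y) := by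
  rw [gg_rec deg wt a b hdeg hfin hcount, gz_RR]
  obtain ⟨k, rfl⟩ : ∃ k, n = k + 1 := ⟨n - 1, by omega⟩
  rw [Finset.sum_range_succ, Nat.add_sub_cancel]
  congr 2
  · apply Finset.sum_congr rfl
    intro j hj
    rw [mem_range] at hj
    congr 1
    apply Finset.sum_congr rfl
    intro l hl
    rw [mem_range] at hl
    have h1 : (l + 1) * (j + 1) ≤ k + 1 :=
      (Nat.mul_le_mul_right _ hl).trans (Nat.div_mul_le_self _ _)
    have h2 : k + 1 - (l + 1) * (j + 1) < k + 1 := by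
      have : 0 < (l + 1) * (j + 1) := by positivity
      omega
    have h3 : ((k + 1 - (l + 1) * (j + 1) : ℕ) : ℤ) = k + 1 - (l + 1) * (j + 1) := by
      rw [Nat.cast_sub h1]; push_cast; ring
    obtain ⟨h4, h5⟩ := ha (j + 1) (by omega) (by omega)
    rw [h4, h5]
    simp only [hT _ h2, h3]
    push_cast
    have q1 : ∀ z : ℤ, z - ((l : ℤ) + 1) + ((k : ℤ) + 1 - ((l : ℤ) + 1) * ((j : ℤ) + 1))
        = z + ((k : ℤ) + 1) - ((l : ℤ) + 1) * ((j : ℤ) + 2) := fun z => by ring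
    have q2 : ∀ z : ℤ, z + ((l : ℤ) + 1) + ((k : ℤ) + 1 - ((l : ℤ) + 1) * ((j : ℤ) + 1))
        = z + ((k : ℤ) + 1) - ((l : ℤ) + 1) * (j : ℤ) := fun z => by ring
    have q0 : ∀ z : ℤ, z + ((k : ℤ) + 1 - ((l : ℤ) + 1) * ((j : ℤ) + 1))
        = z + ((k : ℤ) + 1) - ((l : ℤ) + 1) * ((j : ℤ) + 1) := fun z => by ring
    rw [q1, q2, q1, q2, q0, q0]
  · rw [Nat.div_self (by omega), Finset.sum_range_one]
    simp only [zero_add, one_mul, Nat.sub_self]
    simp only [gg_zero deg wt hdeg hfin]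
    unfold Mn
    push_cast
    ring

end

theorem t_NUM {I : Type u} (deg : I → ℕ) (wt : I → ℤ × ℤ) (hdeg : ∀ i, 1 ≤ deg i)
    (a b : ℕ → ℕ) (hfin : ∀ n, {i | deg i = n}.Finite)
    (hcount : ∀ n w, 1 ≤ n → {i | deg i = n ∧ wt i = w}.ncard = mlt a b n w)
    (ha : a 1 = 4) (hb : b 1 = 0)
    (h0 : ∀ n, 2 ≤ n → n ≤ 9 → ph (chi deg wt n) (0, 0) = 0)
    (h1 : ∀ n, 2 ≤ n → n ≤ 9 → ph (chi deg wt n) (1, 1) = 0) :
    a 9 = 261176 := by
  -- the conditions in root coordinates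
  have g0 : ∀ n, 2 ≤ n → n ≤ 9 → gg deg wt n 0 0 - gg deg wt n 1 0 - gg deg wt n 0 1
      + gg deg wt n 2 1 + gg deg wt n 1 2 - gg deg wt n 2 2 = 0 := by
    intro n h2 h9
    have := h0 n h2 h9
    unfold ph at this
    unfold gg
    simpa using this
  have g1 : ∀ n, 2 ≤ n → n ≤ 9 → gg deg wt n 1 1 - gg deg wt n 2 1 - gg deg wt n 1 2
      + gg deg wt n 3 2 + gg deg wt n 2 3 - gg deg wt n 3 3 = 0 := by
    intro n h2 h9
    have := h1 n h2 h9
    unfold ph at this
    unfold gg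
    simpa using this
  -- values of `a n`, `b n` from the tables
  have val : ∀ n, 2 ≤ n → n ≤ 9 → chk0 n = true → chk1 n = true →
      (∀ m < n, ∀ x y, gg deg wt m x y = gz (TT m) (x + m) (y + m)) →
      (∀ j, 1 ≤ j → j < n → a j = AA j ∧ b j = BB j) → a n = AA n ∧ b n = BB n := by
    intro n h2 h9 c0 c1 hT hab
    have st := gg_step deg wt a b hdeg hfin hcount n (by omega) hT hab
    have hn0 : (n : ℤ) ≠ 0 := by exact_mod_cast (by omega : n ≠ 0)
    have k0 := g0 n h2 h9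
    have k1 := g1 n h2 h9
    unfold chk0 at c0
    unfold chk1 at c1
    rw [beq_iff_eq] at c0 c1
    unfold phT at c0 c1
    set R := RR TT n (n - 1) AA BB with hR
    have s00 := st 0 0
    have s10 := st 1 0
    have s01 := st 0 1
    have s21 := st 2 1
    have s12 := st 1 2
    have s22 := st 2 2
    have s11 := st 1 1
    have s32 := st 3 2
    have s23 := st 2 3
    have s33 := st 3 3
    have n00 : Mn (a n) (b n) 0 0 = 2 * a n + b n := by simp [Mn, d0]
    have n10 : Mn (a n) (b n) 1 0 = a n := by simp [Mn, d0]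
    have n01 : Mn (a n) (b n) 0 1 = a n := by simp [Mn, d0]
    have n21 : Mn (a n) (b n) 2 1 = 0 := by simp [Mn, d0]
    have n12 : Mn (a n) (b n) 1 2 = 0 := by simp [Mn, d0]
    have n22 : Mn (a n) (b n) 2 2 = 0 := by simp [Mn, d0]
    have n11 : Mn (a n) (b n) 1 1 = a n := by simp [Mn, d0]
    have n32 : Mn (a n) (b n) 3 2 = 0 := by simp [Mn, d0]
    have n23 : Mn (a n) (b n) 2 3 = 0 := by simp [Mn, d0]
    have n33 : Mn (a n) (b n) 3 3 = 0 := by simp [Mn, d0]
    rw [n00] at s00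
    rw [n10] at s10
    rw [n01] at s01
    rw [n21] at s21
    rw [n12] at s12
    rw [n22] at s22
    rw [n11] at s11
    rw [n32] at s32
    rw [n23] at s23
    rw [n33] at s33
    have x0 : ((0 : ℤ) + n) = n := by ring
    have x1 : ((1 : ℤ) + n) = n + 1 := by ring
    have x2 : ((2 : ℤ) + n) = n + 2 := by ring
    have x3 : ((3 : ℤ) + n) = n + 3 := by ring
    have x2' : ((n : ℤ) + 1 + 1) = n + 2 := by ring
    have x3' : ((n : ℤ) + 1 + 2) = n + 3 := by ring
    simp only [x0, x1, x2, x3] at s00 s10 s01 s21 s12 s22 s11 s32 s23 s33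
    simp only [x2', x3'] at c1
    have k0' : (n : ℤ) * (gg deg wt n 0 0 - gg deg wt n 1 0 - gg deg wt n 0 1
      + gg deg wt n 2 1 + gg deg wt n 1 2 - gg deg wt n 2 2) = 0 := by rw [k0, mul_zero]
    have k1' : (n : ℤ) * (gg deg wt n 1 1 - gg deg wt n 2 1 - gg deg wt n 1 2
      + gg deg wt n 3 2 + gg deg wt n 2 3 - gg deg wt n 3 3) = 0 := by rw [k1, mul_zero]
    have r0 : (n : ℤ) * (b n : ℤ) = n * BB n := by linarith
    have r1 : (n : ℤ) * (a n : ℤ) = n * AA n := by linarith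
    exact ⟨by exact_mod_cast mul_left_cancel₀ hn0 r1, by exact_mod_cast mul_left_cancel₀ hn0 r0⟩
  -- the table of degree `n`
  have tab : ∀ n, 1 ≤ n → chk n = true →
      (∀ m < n, ∀ x y, gg deg wt m x y = gz (TT m) (x + m) (y + m)) →
      (∀ j, 1 ≤ j → j < n + 1 → a j = AA j ∧ b j = BB j) →
      ∀ x y, gg deg wt n x y = gz (TT n) (x + n) (y + n) := by
    intro n h1n c hT hab x y
    have st := gg_step deg wt a b hdeg hfin hcount n h1n hT (fun j h h' => hab j h (by omega)) x y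
    obtain ⟨han, hbn⟩ := hab n h1n (by omega)
    have hn0 : (n : ℤ) ≠ 0 := by exact_mod_cast (by omega : n ≠ 0)
    have hz := gz_isZ _ c (x + n) (y + n)
    rw [gz_add, gz_smul] at hz
    have hRR : gz (RR TT n n AA BB) (x + n) (y + n) =
        gz (RR TT n (n - 1) AA BB) (x + n) (y + n) + n * Mn (a n) (b n) x y := by
      obtain ⟨k, rfl⟩ : ∃ k, n = k + 1 := ⟨n - 1, by omega⟩
      rw [gz_RR, gz_RR, Finset.sum_range_succ, Nat.add_sub_cancel, Nat.div_self (by omega),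
        Finset.sum_range_one]
      congr 1
      simp only [zero_add, one_mul, Nat.sub_self, ← han, ← hbn]
      have h00 : ∀ x y : ℤ, gz (TT 0) x y = d0 x y := by
        intro x y
        have := hT 0 (by omega) x y
        rw [gg_zero deg wt hdeg hfin] at this
        rw [this]
        simp
      simp only [h00]
      unfold Mn
      push_cast
      have q0 : ∀ z : ℤ, z + ((k : ℤ) + 1) - 1 * ((k : ℤ) + 1) = z := fun z => by ring
      have q1 : ∀ z : ℤ, z + ((k : ℤ) + 1) - 1 * ((k : ℤ) + 2) = z - 1 := fun z => by ring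
      have q2 : ∀ z : ℤ, z + ((k : ℤ) + 1) - 1 * (k : ℤ) = z + 1 := fun z => by ring
      rw [q0, q0, q1, q1, q2, q2]
    apply mul_left_cancel₀ hn0
    rw [st, ← hRR]
    linarith
  -- the induction
  have T0' : ∀ x y, gg deg wt 0 x y = gz (TT 0) (x + (0 : ℕ)) (y + (0 : ℕ)) := by
    intro x y
    rw [gg_zero deg wt hdeg hfin]
    simp only [Nat.cast_zero, add_zero]
    simp only [TT, T0, List.getD_cons_zero, gz, rz, d0]
    by_cases hx : x = 0 <;> by_cases hy : y = 0 <;> simp [hx, hy]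
  have main : ∀ n, n ≤ 8 → (∀ m < n + 1, ∀ x y, gg deg wt m x y = gz (TT m) (x + m) (y + m)) ∧
      (∀ j, 1 ≤ j → j < n + 1 → a j = AA j ∧ b j = BB j) := by
    intro n
    induction n with
    | zero =>
      intro _
      refine ⟨fun m hm x y => ?_, fun j h1 h2 => by omega⟩
      obtain rfl : m = 0 := by omega
      exact T0' x y
    | succ n ih =>
      intro hn
      obtain ⟨hT, hab⟩ := ih (by omega)
      have hv : a (n + 1) = AA (n + 1) ∧ b (n + 1) = BB (n + 1) := by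
        rcases Nat.eq_zero_or_pos n with rfl | hpos
        · exact ⟨by simp [ha, AA], by simp [hb, BB]⟩
        · have hn8 : n < 8 := by omega
          refine val (n + 1) (by omega) (by omega) ?_ ?_ hT hab
          · interval_cases n
            exacts [chk0_2, chk0_3, chk0_4, chk0_5, chk0_6, chk0_7, chk0_8]
          · interval_cases n
            exacts [chk1_2, chk1_3, chk1_4, chk1_5, chk1_6, chk1_7, chk1_8]
      have hab' : ∀ j, 1 ≤ j → j < n + 1 + 1 → a j = AA j ∧ b j = BB j := by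
        intro j hj1 hj2
        rcases Nat.lt_succ_iff_lt_or_eq.1 hj2 with h | h
        · exact hab j hj1 h
        · rw [h]; exact hv
      have ht : ∀ x y, gg deg wt (n + 1) x y =
          gz (TT (n + 1)) (x + (n + 1 : ℕ)) (y + (n + 1 : ℕ)) := by
        refine tab (n + 1) (by omega) ?_ hT hab'
        have : n < 8 := by omega
        interval_cases n
        exacts [chk_1, chk_2, chk_3, chk_4, chk_5, chk_6, chk_7, chk_8]
      refine ⟨fun m hm x y => ?_, hab'⟩
      rcases Nat.lt_succ_iff_lt_or_eq.1 hm with h | h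
      · exact hT m h x y
      · subst h; exact ht x y
  obtain ⟨hT, hab⟩ := main 8 le_rfl
  exact (val 9 (by omega) le_rfl chk0_9 chk1_9 hT hab).1

end Pool.Agent.J4H19.ABG
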